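import Pool.Agent.H58.PF.Targets

/-! # CCP: the proper forcing axiom implies Martin's axiom for `ℵ₁` dense sets -/

set_option autoImplicit false

open Topology Cardinal

namespace Pool.Agent.H66.PF

open Pool.Agent.H58.PF Pool.Agent.H64.AK

/-- `A` is an antichain -/
def AC {P : Type} [PartialOrder P] (A : Set P) : Prop :=
  ∀ a ∈ A, ∀ b ∈ A, a ≠ b → ¬ ∃ c : P, c ≤ a ∧ c ≤ b

theorem max_ac {P : Type} [PartialOrder P] (S : Set P) :
    ∃ A ⊆ S, AC A ∧ ∀ x ∈ S, ∃ a ∈ A, ∃ c : P, c ≤ x ∧ c ≤ a := by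
  obtain ⟨A, hA⟩ := zorn_subset {A : Set P | A ⊆ S ∧ AC A} (by
    intro c hc hch
    refine ⟨⋃₀ c, ⟨Set.sUnion_subset fun A hA => (hc hA).1, ?_⟩,
      fun s hs => Set.subset_sUnion_of_mem hs⟩
    rintro a ⟨A, hA, ha⟩ b ⟨B, hB, hb⟩ hab
    rcases hch.total hA hB with h | h
    · exact (hc hB).2 a (h ha) b hb hab
    · exact (hc hA).2 a ha b (h hb) hab)
  refine ⟨A, hA.prop.1, hA.prop.2, fun x hx => ?_⟩
  by_cases hxA : x ∈ A
  · exact ⟨x, hxA, x, le_rfl, le_rfl⟩
  by_contra hne
  push Not at hne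
  have h1 : insert x A ∈ {A : Set P | A ⊆ S ∧ AC A} := by
    refine ⟨Set.insert_subset hx hA.prop.1, ?_⟩
    rintro a (rfl | ha) b (rfl | hb) hab
    · exact absurd rfl hab
    · rintro ⟨c, h2, h3⟩
      exact hne b hb c h2 h3
    · rintro ⟨c, h2, h3⟩
      exact hne a ha c h3 h2
    · exact hA.prop.2 a ha b hb hab
  exact hxA (hA.le_of_ge h1 (Set.subset_insert x A) (Set.mem_insert x A))

theorem ccp : T_CCP := by
  classical
  intro hPFA P _ _ hccc ι D hι hD
  refine hPFA P ?_ ι D hι hD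
  choose A hA1 hA2 hA3 using fun S : Set P => max_ac S
  have hex : ∀ S : Set P, ∃ e : ℕ → P, (A S).Nonempty → A S = Set.range e := by
    intro S
    by_cases h : (A S).Nonempty
    · obtain ⟨e, he⟩ := (hccc (A S) (hA2 S)).exists_eq_range h
      exact ⟨e, fun _ => he⟩
    · exact ⟨fun _ => Classical.arbitrary P, fun h' => absurd h' h⟩
  choose e he using hex
  refine ⟨fun n l => match l with
    | [Sum.inr S] => Sum.inl (e S n)
    | _ => Sum.inl (Classical.arbitrary P), fun M _ hM p _ => ⟨p, le_rfl, ?_⟩⟩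
  intro S hS hSd r _
  obtain ⟨r', hr', hr'r⟩ := hSd r
  obtain ⟨a, ha, c, hc1, hc2⟩ := hA3 S r' hr'
  have haS := ha
  rw [he S ⟨a, ha⟩] at ha
  obtain ⟨n, rfl⟩ := ha
  refine ⟨e S n, hA1 S haS, ?_, c, hc1.trans hr'r, hc2⟩
  have h := hM n [Sum.inr S] (by simpa using hS)
  exact h

/-- one step of the closure -/
def stp {X : Type} (F : ℕ → List X → X) (N : Set X) : Set X :=
  N ∪ ⋃ n, (F n) '' {l | ∀ x ∈ l, x ∈ N}

theorem stp_countable {X : Type} (F : ℕ → List X → X) {N : Set X} (hN : N.Countable) :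
    (stp F N).Countable := by
  refine hN.union (Set.countable_iUnion fun n => Set.Countable.image ?_ _)
  have : Countable N := hN
  have h1 : {l : List X | ∀ x ∈ l, x ∈ N} ⊆ Set.range fun l : List N => l.map Subtype.val := by
    intro l hl
    refine ⟨l.attach.map fun x => ⟨x.1, hl x.1 x.2⟩, ?_⟩
    show List.map Subtype.val (List.map _ l.attach) = l
    rw [List.map_map]
    exact l.attach_map_subtype_val
  exact (Set.countable_range _).mono h1

theorem clo : T_CLO := by
  intro X F S hS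
  have hc : ∀ k, ((stp F)^[k] S).Countable := by
    intro k
    induction k with
    | zero => exact hS
    | succ k ih =>
      rw [Function.iterate_succ_apply']
      exact stp_countable F ih
  have hm1 : ∀ k, (stp F)^[k] S ⊆ (stp F)^[k + 1] S := by
    intro k
    rw [Function.iterate_succ_apply']
    exact Set.subset_union_left
  have hm : Monotone fun k => (stp F)^[k] S := monotone_nat_of_le_succ hm1
  refine ⟨⋃ k, (stp F)^[k] S, ?_, Set.countable_iUnion hc, ?_⟩
  · exact Set.subset_iUnion (fun k => (stp F)^[k] S) 0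
  intro n l hl
  have h1 : ∃ k, ∀ x ∈ l, x ∈ (stp F)^[k] S := by
    induction l with
    | nil => exact ⟨0, fun x hx => absurd hx (by simp)⟩
    | cons a l ih =>
      obtain ⟨k, hk⟩ := ih fun x hx => hl x (by simp [hx])
      obtain ⟨j, hj⟩ := Set.mem_iUnion.1 (hl a (by simp))
      refine ⟨max k j, fun x hx => ?_⟩
      rcases List.mem_cons.1 hx with rfl | hx
      · exact hm (le_max_right k j) hj
      · exact hm (le_max_left k j) (hk x hx)
  obtain ⟨k, hk⟩ := h1
  refine Set.mem_iUnion.2 ⟨k + 1, ?_⟩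
  rw [Function.iterate_succ_apply']
  exact Or.inr (Set.mem_iUnion.2 ⟨n, l, hk, rfl⟩)

end Pool.Agent.H66.PF
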